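import Pool.Agent.Y120.J.DefsW
import Pool.Agent.Y120.H.FamR

/-!
# The Taylor expansion in several variables
-/

set_option autoImplicit false

open PowerSeries Pool.Agent.Y113 Pool.Agent.Y120.GF Pool.Agent.Y120.GH

namespace Pool.Agent.Y279.J

open Pool.Agent.Y120.J

theorem bad_equiv {α β : Type} [Fintype α] [Fintype β] {V : Submodule ℚ ℂ} (e : α ≃ β) {x : β → ℂ}
    (h : Bad V x) : Bad V fun a => x (e a) := by
  obtain ⟨v, hvV, hv0, hv⟩ := h
  refine ⟨fun a => v (e a), fun a => hvV _, ?_, ?_⟩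
  · intro h0
    apply hv0
    funext b
    have := congrFun h0 (e.symm b)
    simpa using this
  · rw [Equiv.sum_comp e (fun b => v b * x b)]
    exact hv

theorem bad_congr {α : Type} [Fintype α] {V : Submodule ℚ ℂ} {x y : α → ℂ}
    (h : Bad V x) (e : ∀ a, y a = x a) : Bad V y := by
  have : y = x := funext e
  rw [this]
  exact h

/-- the extended spaces -/
noncomputable def VV (n : ℕ) (ℓ : ℂ) : ℕ → Submodule ℚ ℂ → Submodule ℚ ℂ
  | 0, V => V
  | k + 1, V => VV n ℓ k (Ext V fun i : Fin (n + 1) => ℓ ^ (i : ℕ))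

theorem VV_finite (n : ℕ) (ℓ : ℂ) (k : ℕ) : ∀ (V : Submodule ℚ ℂ), Module.Finite ℚ V →
    Module.Finite ℚ (VV n ℓ k V) ∧
      Module.finrank ℚ (VV n ℓ k V) ≤ (n + 1) ^ k * Module.finrank ℚ V := by
  induction k with
  | zero => intro V hV; exact ⟨hV, by rw [pow_zero, one_mul]; exact le_rfl⟩
  | succ k ih =>
    intro V hV
    have h1 : Module.Finite ℚ (Ext V fun i : Fin (n + 1) => ℓ ^ (i : ℕ)) := inferInstance
    obtain ⟨h2, h3⟩ := ih _ h1
    refine ⟨h2, h3.trans ?_⟩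
    have h4 := finrank_Ext V fun i : Fin (n + 1) => ℓ ^ (i : ℕ)
    rw [Fintype.card_fin] at h4
    calc _ ≤ (n + 1) ^ k * ((n + 1) * Module.finrank ℚ V) := Nat.mul_le_mul_left _ h4
      _ = _ := by ring

section
variable {κ : Type} [Fintype κ] (n : ℕ) (ℓ : ℂ)

/-- first reindexing -/
def eq1 (τ K κ' μ : Type) (k : ℕ) (f : κ' × μ ≃ K) :
    ((τ × (Fin k → K)) × κ') × μ ≃ τ × (Fin (k + 1) → K) where
  toFun p := (p.1.1.1, Fin.cons (f (p.1.2, p.2)) p.1.1.2)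
  invFun q := (((q.1, Fin.tail q.2), (f.symm (q.2 0)).1), (f.symm (q.2 0)).2)
  left_inv p := by simp
  right_inv q := by simp

/-- second reindexing -/
def eq2 (τ κ' μ X : Type) : (τ × (κ' × μ)) × X ≃ ((τ × X) × κ') × μ where
  toFun p := (((p.1.1, p.2), p.1.2.1), p.1.2.2)
  invFun q := ((q.1.1.1, (q.1.2, q.2)), q.1.1.2)
  left_inv p := rfl
  right_inv q := rfl

/-- third reindexing -/
def eq3 (τ K : Type) (k : ℕ) : τ × (Fin (k + 1) → K) ≃ (τ × K) × (Fin k → K) where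
  toFun q := ((q.1, q.2 0), Fin.tail q.2)
  invFun p := (p.1.1, Fin.cons p.1.2 p.2)
  left_inv q := by simp
  right_inv p := by simp

theorem main (k : ℕ) : ∀ (τ : Type) [Fintype τ] (Λ : τ → ℂ) (V : Submodule ℚ ℂ)
    (Q : Fin k → ℂ) (L : Fin k → κ → ℂ),
    Bad V (fun p : τ × (Fin k → κ × Fin (n + 1)) =>
      Λ p.1 * ∏ i, (L i (p.2 i).1 * (ℓ + Q i) ^ ((p.2 i).2 : ℕ))) →
    Bad (VV n ℓ k V) (fun p : τ × (Fin k → κ × Fin (n + 1)) =>
      Λ p.1 * ∏ i, (L i (p.2 i).1 * (1 / (((p.2 i).2 : ℕ).factorial : ℂ) * Q i ^ ((p.2 i).2 : ℕ)))) := by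
  induction k with
  | zero =>
    intro τ _ Λ V Q L h
    simpa [VV] using h
  | succ k ih =>
    intro τ _ Λ V Q L h
    have h1 := bad_equiv (eq1 τ (κ × Fin (n + 1)) κ (Fin (n + 1)) k (Equiv.refl _)) h
    have e1 : (fun a : ((τ × (Fin k → κ × Fin (n + 1))) × κ) × Fin (n + 1) =>
        Λ ((eq1 τ (κ × Fin (n + 1)) κ (Fin (n + 1)) k (Equiv.refl _)) a).1 *
          ∏ i, (L i (((eq1 τ (κ × Fin (n + 1)) κ (Fin (n + 1)) k (Equiv.refl _)) a).2 i).1 *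
            (ℓ + Q i) ^ ((((eq1 τ (κ × Fin (n + 1)) κ (Fin (n + 1)) k (Equiv.refl _)) a).2 i).2 : ℕ))) =
        fun a => (Λ a.1.1.1 * (∏ i : Fin k, (L i.succ (a.1.1.2 i).1 *
          (ℓ + Q i.succ) ^ ((a.1.1.2 i).2 : ℕ))) * L 0 a.1.2) * (ℓ + Q 0) ^ (a.2 : ℕ) := by
      funext a
      rw [Fin.prod_univ_succ]
      simp only [eq1, Equiv.coe_fn_mk, Equiv.refl_apply, Fin.cons_zero, Fin.cons_succ]
      ring
    rw [e1] at h1
    have h2 := bad_taylor n ℓ (Q 0) (fun a : (τ × (Fin k → κ × Fin (n + 1))) × κ =>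
      Λ a.1.1 * (∏ i : Fin k, (L i.succ (a.1.2 i).1 *
          (ℓ + Q i.succ) ^ ((a.1.2 i).2 : ℕ))) * L 0 a.2) h1
    have h3 := bad_equiv (eq2 τ κ (Fin (n + 1)) (Fin k → κ × Fin (n + 1))) h2
    have h4 := ih (τ × (κ × Fin (n + 1)))
      (fun t => Λ t.1 * (L 0 t.2.1 * (1 / ((t.2.2 : ℕ).factorial : ℂ) * Q 0 ^ (t.2.2 : ℕ)))) _
      (fun i => Q i.succ) (fun i => L i.succ) (by
        refine bad_congr h3 fun a => ?_
        simp only [eq2, Equiv.coe_fn_mk]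
        ring)
    have h5 := bad_equiv (eq3 τ (κ × Fin (n + 1)) k) h4
    refine bad_congr h5 fun a => ?_
    rw [Fin.prod_univ_succ]
    simp only [eq3, Equiv.coe_fn_mk, Fin.tail]
    ring

end

theorem t_w2 : T_W2 := by
  intro κ _ n k D V _ hD ℓ
  obtain ⟨h1, h2⟩ := VV_finite n ℓ k V inferInstance
  refine ⟨VV n ℓ k V, h1, h2.trans (Nat.mul_le_mul_left _ hD), ?_⟩
  intro Q L h
  have h3 := bad_equiv (Equiv.punitProd.{0, 0} (Fin k → κ × Fin (n + 1))) h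
  have h4 := main n ℓ k PUnit (fun _ => 1) V Q L (by
    refine bad_congr h3 fun a => ?_
    rw [one_mul]
    rfl)
  have h5 := bad_equiv (Equiv.punitProd.{0, 0} (Fin k → κ × Fin (n + 1))).symm h4
  refine bad_congr h5 fun a => ?_
  rw [one_mul]
  rfl

end Pool.Agent.Y279.J
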